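import Pool.Agent.H37.CNS.Stmts

/-! Row `DLS` of the board `cns` of helper37 (MP_b57703). -/

set_option autoImplicit false

namespace Pool.CND

open HahnSeries

section DLSsec

variable {k : Type} [Field k]

/-- the operator `t d/dt` -/
noncomputable def dlsT (f : LaurentSeries k) : LaurentSeries k where
  coeff n := (n : k) * f.coeff n
  isPWO_support' := f.isPWO_support.mono fun n hn => by
    rw [HahnSeries.mem_support]
    intro h
    apply hn
    show (n : k) * f.coeff n = 0
    rw [h, mul_zero]

lemma dlsT_coeff (f : LaurentSeries k) (n : ℤ) : (dlsT f).coeff n = (n : k) * f.coeff n := rfl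

lemma dlsT_support (f : LaurentSeries k) : (dlsT f).support ⊆ f.support := by
  intro n hn
  rw [HahnSeries.mem_support] at hn ⊢
  intro h
  exact hn (by rw [dlsT_coeff, h, mul_zero])

lemma dlsT_mul (f g : LaurentSeries k) : dlsT (f * g) = f * dlsT g + g * dlsT f := by
  ext n
  rw [dlsT_coeff, HahnSeries.coeff_add, HahnSeries.coeff_mul,
    HahnSeries.coeff_mul_right' g.isPWO_support (dlsT_support g), mul_comm g,
    HahnSeries.coeff_mul_left' f.isPWO_support (dlsT_support f), Finset.mul_sum,
    ← Finset.sum_add_distrib]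
  apply Finset.sum_congr rfl
  intro ij hij
  simp only [Finset.mem_antidiagonal] at hij
  rw [dlsT_coeff, dlsT_coeff]
  have h2 : (n : k) = (ij.1 : k) + (ij.2 : k) := by
    rw [← hij.2.2]
    push_cast
    ring
  rw [h2]
  ring

/-- `d/dt` -/
noncomputable def dlsF (f : LaurentSeries k) : LaurentSeries k :=
  (single (-1) 1 : LaurentSeries k) * dlsT f

lemma dlsF_coeff (f : LaurentSeries k) (n : ℤ) :
    (dlsF f).coeff n = ((n + 1 : ℤ) : k) * f.coeff (n + 1) := by
  rw [dlsF, coeff_single_mul, one_mul, dlsT_coeff, sub_neg_eq_add]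

lemma dlsF_mul (f g : LaurentSeries k) : dlsF (f * g) = f * dlsF g + g * dlsF f := by
  rw [dlsF, dlsF, dlsF, dlsT_mul]
  ring

lemma dls_alg (c : k) (f : LaurentSeries k) (n : ℤ) :
    (algebraMap k (LaurentSeries k) c * f).coeff n = c * f.coeff n := by
  have h : algebraMap k (LaurentSeries k) c = HahnSeries.C c := by
    rw [algebraMap_apply']
    have h2 : algebraMap k (PowerSeries k) c = PowerSeries.C c := rfl
    rw [h2, ofPowerSeries_C]
  rw [h, C_mul_eq_smul, HahnSeries.coeff_smul, smul_eq_mul]

/-- `d/dt` as a derivation -/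
noncomputable def dlsD : Derivation k (LaurentSeries k) (LaurentSeries k) :=
  Derivation.mk'
    (@LinearMap.mk k k _ _ (RingHom.id k) (LaurentSeries k) (LaurentSeries k) _ _
      Algebra.toModule HahnSeries.instModule ⟨dlsF, fun f g => by
        ext n
        rw [HahnSeries.coeff_add, dlsF_coeff, dlsF_coeff, dlsF_coeff, HahnSeries.coeff_add,
          mul_add]⟩
      (fun c f => by
        ext n
        rw [RingHom.id_apply, Algebra.smul_def]
        show (dlsF (algebraMap k (LaurentSeries k) c * f)).coeff n = (c • dlsF f).coeff n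
        rw [HahnSeries.coeff_smul, dlsF_coeff, dlsF_coeff, dls_alg, smul_eq_mul]
        ring))
    (fun f g => by
      show dlsF (f * g) = f • dlsF g + g • dlsF f
      rw [smul_eq_mul, smul_eq_mul]
      exact dlsF_mul f g)

lemma dlsD_apply (f : LaurentSeries k) : dlsD f = dlsF f := rfl

end DLSsec

theorem dls_thm : S_DLS := by
  intro p k _ hp hchar
  let δ : Derivation k (LaurentSeries k) (LaurentSeries k) := dlsD
  have hδ : ∀ (x : LaurentSeries k) (n : ℤ),
      (δ x).coeff n = ((n + 1 : ℤ) : k) * x.coeff (n + 1) := fun x n => dlsF_coeff x n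
  have h1 : ∀ x : LaurentSeries k, x ≠ 0 → δ x = 0 ∨ x.order - 1 ≤ (δ x).order := by
    intro x hx
    by_cases h : δ x = 0
    · exact Or.inl h
    · right
      rw [le_order_iff_forall h]
      intro j hj
      rw [hδ, coeff_eq_zero_of_lt_order (by omega), mul_zero]
  refine ⟨δ, ?_, h1, ?_, ?_⟩
  · ext n
    rw [hδ, coeff_one, coeff_single]
    by_cases hn : n = 0
    · subst hn
      simp
    · rw [if_neg hn, if_neg (by omega), mul_zero]
  · intro x hx hpx
    by_cases h : δ x = 0
    · exact Or.inl h
    · right
      rw [le_order_iff_forall h]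
      intro j hj
      rw [hδ]
      rcases eq_or_lt_of_le (show j + 1 ≤ x.order by omega) with h2 | h2
      · have : ((x.order : ℤ) : k) = 0 := (CharP.intCast_eq_zero_iff k p x.order).2 hpx
        rw [h2, this, zero_mul]
      · rw [coeff_eq_zero_of_lt_order h2, mul_zero]
  · intro x hx hpx
    have hc : (δ x).coeff (x.order - 1) ≠ 0 := by
      rw [hδ, show x.order - 1 + 1 = x.order by ring]
      apply mul_ne_zero
      · intro h
        exact hpx ((CharP.intCast_eq_zero_iff k p x.order).1 h)
      · intro h
        exact hx (coeff_order_eq_zero.1 h)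
    have hne : δ x ≠ 0 := by
      intro h
      rw [h] at hc
      exact hc rfl
    refine ⟨hne, le_antisymm (order_le_of_coeff_ne_zero hc) ?_⟩
    rcases h1 x hx with h | h
    · exact absurd h hne
    · exact h

end Pool.CND
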